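import Pool.Agent.Lib.MP_f36384_an.N.Co

namespace Pool.Agent.Retired.MP_f36384_an.FirstBlock

open Pool.Agent.Lib.MP_f36384_an in
/-- The Taylor coefficients at `t = 0` of the entire functions `t ↦ φ_t^n (-1)`, where
`φ_t z = exp (t z) - 1`, have modulus at most `1` for every `n` and every index `k ≤ 2 n`. -/
theorem result (n k : ℕ) (hk : k ≤ 2 * n) :
    ‖iteratedDeriv k (fun t : ℂ => (fun z : ℂ => Complex.exp (t * z) - 1)^[n] (-1)) 0 /
      (k.factorial : ℂ)‖ ≤ 1 := by
  have e : co (W n) (k + 1) = iteratedDeriv k (F n) 0 / (k.factorial : ℂ) :=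
    coeff_shift (F_diff n) k
  refine (congrArg norm e).symm.trans_le ?_
  have h : (k + 1) / (n + 1) < 2 := (Nat.div_lt_iff_lt_mul n.succ_pos).2 (by omega)
  rw [a_eq]
  generalize (k + 1) / (n + 1) = j at h
  interval_cases j
  · simp [cf_zero]
  · simpa [Finset.sum_range_succ, cf_zero] using cf_one _

end Pool.Agent.Retired.MP_f36384_an.FirstBlock
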