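import Mathlib

open Real Metric Complex Filter Topology

namespace Pool.Agent.Retired.MP_f36384_an.Stab

noncomputable def F (n : ℕ) (t : ℂ) : ℂ := (fun z => Complex.exp (t * z) - 1)^[n] (-1)

theorem F_succ (n : ℕ) (t : ℂ) : F (n + 1) t = Complex.exp (t * F n t) - 1 := by
  simp [F, Function.iterate_succ_apply']

theorem F_diff (n : ℕ) : Differentiable ℂ (F n) := by
  induction n with
  | zero => exact differentiable_const (-1 : ℂ)
  | succ n ih =>
    have : F (n + 1) = fun t => Complex.exp (t * F n t) - 1 := funext (F_succ n)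
    rw [this]; fun_prop

theorem coeff_shift {f : ℂ → ℂ} (hf : Differentiable ℂ f) (k : ℕ) :
    iteratedDeriv (k + 1) (fun t => t * f t) 0 / (k + 1).factorial =
      iteratedDeriv k f 0 / k.factorial := by
  have h1 := (hf.diffContOnCl (s := ball (0 : ℂ) 1)).circleIntegral_one_div_sub_center_pow_smul
    one_pos k
  have h2 := ((differentiable_id.mul hf).diffContOnCl
    (s := ball (0 : ℂ) 1)).circleIntegral_one_div_sub_center_pow_smul one_pos (k + 1)
  have h3 : (∮ z in C(0, 1), (1 / (z - 0) ^ (k + 1 + 1)) • ((id : ℂ → ℂ) * f) z) =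
      ∮ z in C(0, 1), (1 / (z - 0) ^ (k + 1)) • f z := by
    refine circleIntegral.integral_congr zero_le_one fun z hz => ?_
    have hz0 : z ≠ 0 := by
      rintro rfl
      simp at hz
    simp only [sub_zero, smul_eq_mul, Pi.mul_apply, id]
    field_simp
    ring
  rw [h3, h1] at h2
  simp only [smul_eq_mul] at h2
  have h4 : (2 * π * I) * (iteratedDeriv k f 0 / k.factorial) =
      (2 * π * I) * (iteratedDeriv (k + 1) (fun t => t * f t) 0 / (k + 1).factorial) := by
    calc (2 * π * I) * (iteratedDeriv k f 0 / k.factorial)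
        = 2 * π * I / k.factorial * iteratedDeriv k f 0 := by ring
      _ = 2 * π * I / (k + 1).factorial * iteratedDeriv (k + 1) (id * f) 0 := h2
      _ = _ := by
        have : (id * f) = fun t => t * f t := rfl
        rw [this]
        ring
  exact (mul_left_cancel₀ two_pi_I_ne_zero h4).symm

/-- `exp u - 1 - u` vanishes to second order at `0`. -/
theorem exp2 : ∃ w : ℂ → ℂ, AnalyticAt ℂ w 0 ∧ ∀ᶠ u in 𝓝 (0 : ℂ), Complex.exp u - 1 - u = u ^ 2 * w u := by
  have ha : AnalyticAt ℂ (fun u : ℂ => Complex.exp u - 1 - u) 0 := by fun_prop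
  have : ((2 : ℕ) : ℕ∞) ≤ analyticOrderAt (fun u : ℂ => Complex.exp u - 1 - u) 0 := by
    rw [natCast_le_analyticOrderAt_iff_iteratedDeriv_eq_zero ha]
    intro i hi
    interval_cases i
    · simp
    · rw [iteratedDeriv_one]
      simp
  obtain ⟨w, hw, h⟩ := (natCast_le_analyticOrderAt ha).1 this
  exact ⟨w, hw, by simpa using h⟩

theorem step {n : ℕ} {v : ℂ → ℂ} (hv : AnalyticAt ℂ v 0) (h : ∀ᶠ t in 𝓝 (0 : ℂ), F n t = t ^ n * v t) :
    ∃ g : ℂ → ℂ, AnalyticAt ℂ g 0 ∧ ∀ᶠ t in 𝓝 (0 : ℂ), F (n + 1) t - t * F n t = t ^ (2 * n + 2) * g t := by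
  obtain ⟨w, hw, hu⟩ := exp2
  have a : AnalyticAt ℂ (fun t => t * F n t) 0 := analyticAt_id.mul ((F_diff n).analyticAt 0)
  have hw' : AnalyticAt ℂ w ((fun t => t * F n t) 0) := by simpa using hw
  have tt : Tendsto (fun t => t * F n t) (𝓝 0) (𝓝 0) := by simpa using a.continuousAt.tendsto
  refine ⟨fun t => v t ^ 2 * w (t * F n t), (hv.pow 2).mul (AnalyticAt.comp (f := fun t => t * F n t) hw' a), ?_⟩
  filter_upwards [h, tt.eventually hu] with t h1 h2
  rw [F_succ, h2]
  set W := w (t * F n t)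
  rw [h1]; ring

theorem ord (n : ℕ) : ∃ v : ℂ → ℂ, AnalyticAt ℂ v 0 ∧ ∀ᶠ t in 𝓝 (0 : ℂ), F n t = t ^ n * v t := by
  induction n with
  | zero => exact ⟨F 0, (F_diff 0).analyticAt 0, by simp⟩
  | succ n ih =>
    obtain ⟨v, hv, h⟩ := ih
    obtain ⟨g, hg, h2⟩ := step hv h
    refine ⟨fun t => v t + t ^ (n + 1) * g t, hv.add ((analyticAt_id.pow _).mul hg), ?_⟩
    filter_upwards [h, h2] with t h1 h2
    rw [h1] at h2
    rw [eq_add_of_sub_eq h2]; ring

theorem stab {n k : ℕ} (hk : k ≤ 2 * n) :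
    iteratedDeriv (k + 1) (F (n + 1)) 0 / ((k + 1).factorial : ℂ) =
      iteratedDeriv k (F n) 0 / (k.factorial : ℂ) := by
  obtain ⟨v, hv, h⟩ := ord n
  obtain ⟨g, hg, h2⟩ := step hv h
  have a : Differentiable ℂ (fun t => t * F n t) := differentiable_id.mul (F_diff n)
  have ha : AnalyticAt ℂ (fun t => F (n + 1) t - t * F n t) 0 :=
    ((F_diff (n + 1)).sub a).analyticAt 0
  have h3 := (natCast_le_analyticOrderAt_iff_iteratedDeriv_eq_zero ha).1
    ((natCast_le_analyticOrderAt ha (n := 2 * n + 2)).2 ⟨g, hg, by simpa using h2⟩) (k + 1) (by omega)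
  rw [iteratedDeriv_fun_sub (F_diff (n + 1)).contDiff.contDiffAt a.contDiff.contDiffAt,
    sub_eq_zero] at h3
  rw [h3, coeff_shift (F_diff n)]

/-- The text of FirstBlock from the text of FinitelyManyExceptions, Mathlib only. -/
theorem firstBlock_of_finite (H : {p : ℕ × ℕ | 1 <
    ‖iteratedDeriv p.2 (fun t : ℂ => (fun z : ℂ => Complex.exp (t * z) - 1)^[p.1] (-1)) 0 /
      (p.2.factorial : ℂ)‖}.Finite) (n k : ℕ) (hk : k ≤ 2 * n) :
    ‖iteratedDeriv k (fun t : ℂ => (fun z : ℂ => Complex.exp (t * z) - 1)^[n] (-1)) 0 /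
      (k.factorial : ℂ)‖ ≤ 1 := by
  by_contra hc
  have e : ∀ j, iteratedDeriv (k + j) (F (n + j)) 0 / ((k + j).factorial : ℂ) =
      iteratedDeriv k (F n) 0 / (k.factorial : ℂ) := fun j => by
    induction j with
    | zero => rfl
    | succ j ih => rw [← ih, ← add_assoc, ← add_assoc]; exact stab (by omega)
  refine Set.infinite_of_injective_forall_mem (f := fun j : ℕ => (n + j, k + j))
    (fun a b h => by simpa using congrArg Prod.fst h) (fun j => ?_) H
  have := e j
  show 1 < ‖iteratedDeriv (k + j) (F (n + j)) 0 / ((k + j).factorial : ℂ)‖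
  rw [this]
  exact not_le.1 hc

end Pool.Agent.Retired.MP_f36384_an.Stab

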